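import Pool.Agent.BSE.Stmts5

set_option autoImplicit false

/-!
Row DVB of table bse: the sum of the squared deviations.
-/

open MeasureTheory Matrix Finset
open scoped ComplexConjugate

namespace Pool.Agent.BSE.H85

open Pool.Agent.Helper64_FR

theorem dvb : DVBStmt := by
  intro n B g
  have h1 : ∑ i, H47.dv B g i ^ 2 = ∑ i ∈ B, H47.dv B g i ^ 2 := by
    symm
    apply Finset.sum_subset (Finset.subset_univ B)
    intro i _ hi
    rw [H47.dv_of_notMem hi]
    ring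
  rw [h1]
  have h2 : ∑ i ∈ B, H47.dv B g i ^ 2 = ∑ i ∈ B, (g i ^ 2 -
      2 * ((∑ j ∈ B, g j) / B.card) * g i + ((∑ j ∈ B, g j) / B.card) ^ 2) :=
    Finset.sum_congr rfl fun i hi => by rw [H47.dv_of_mem hi]; ring
  rw [h2, Finset.sum_add_distrib, Finset.sum_sub_distrib, ← Finset.mul_sum, Finset.sum_const,
    nsmul_eq_mul]
  unfold vb
  by_cases hB : B = ∅
  · simp [hB]
  · have : (B.card : ℝ) ≠ 0 := by
      rw [Nat.cast_ne_zero]
      exact Finset.card_ne_zero.2 (Finset.nonempty_iff_ne_empty.2 hB)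
    field_simp
    ring

theorem vb_nonneg {n : ℕ} (B : Finset (Fin n)) (g : Fin n → ℝ) : 0 ≤ vb B g := by
  rw [← dvb n B g]
  exact Finset.sum_nonneg fun i _ => sq_nonneg _

theorem vb_le {n : ℕ} (B : Finset (Fin n)) (g : Fin n → ℝ) : vb B g ≤ ∑ x ∈ B, g x ^ 2 := by
  unfold vb
  have : 0 ≤ (∑ x ∈ B, g x) ^ 2 / (B.card : ℝ) := div_nonneg (sq_nonneg _) (Nat.cast_nonneg _)
  linarith

theorem vb_univ {n : ℕ} (g : Fin n → ℝ) (hg : ∑ x, g x = 0) :
    vb Finset.univ g = ∑ x, g x ^ 2 := by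
  unfold vb
  rw [hg]
  simp

/-- the sum of the products with the deviations is the variance -/
theorem sum_mul_sub {n : ℕ} (B : Finset (Fin n)) (g : Fin n → ℝ) :
    ∑ x ∈ B, g x * (g x - (∑ y ∈ B, g y) / B.card) = vb B g := by
  have h : ∀ x ∈ B, g x * (g x - (∑ y ∈ B, g y) / B.card) =
      g x ^ 2 - g x * ((∑ y ∈ B, g y) / B.card) := fun x _ => by ring
  rw [Finset.sum_congr rfl h, Finset.sum_sub_distrib, ← Finset.sum_mul]
  unfold vb
  ring

end Pool.Agent.BSE.H85
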