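import Pool.Agent.BSE.Stmts5

set_option autoImplicit false

/-!
Row EMX of table bse: assembly of the block inequality.
-/

open MeasureTheory Matrix Finset
open scoped ComplexConjugate

namespace Pool.Agent.BSE.H85

theorem vb_empty {n : ℕ} (g : Fin n → ℝ) : vb (∅ : Finset (Fin n)) g = 0 := by
  simp [vb]

theorem emx (esp : ESPStmt) (csp : CSPStmt) (e1b : E1BStmt) (e2b : E2BStmt) : EMXStmt := by
  intro n B φ hφ
  rcases B.eq_empty_or_nonempty with rfl | hB
  · rw [esp n ∅ φ hφ]
    unfold ce3
    simp only [vb_empty]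
    simp
  · rw [esp n B φ hφ, csp n B φ hφ]
    have h1 := e1b n B φ hφ
    have h2 := e2b n B hB φ hφ
    linarith

end Pool.Agent.BSE.H85
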