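import Pool.Agent.BSE.Stmts5
import Pool.Agent.Helper85_BSE.DVB

set_option autoImplicit false

/-!
Row SK2 of table bse: level 2, alternating, complete.
-/

open MeasureTheory Matrix Finset
open scoped ComplexConjugate

namespace Pool.Agent.BSE.H85

open Pool.Agent.Helper64_FR

variable {n : ℕ}

/-- the matrix of the average over the block, real version -/
noncomputable def QB (B : Finset (Fin n)) (P : Fin n → Fin n → ℝ) (i j : Fin n) : ℝ :=
  if i ∈ B then (if j ∈ B then 0 else (∑ k ∈ B, P k j) / B.card)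
  else (if j ∈ B then (∑ k ∈ B, P i k) / B.card else P i j)

/-- the matrix of the average over the block, complex version -/
noncomputable def QC (B : Finset (Fin n)) (P : Fin n → Fin n → ℂ) (i j : Fin n) : ℂ :=
  if i ∈ B then (if j ∈ B then 0 else (∑ k ∈ B, P k j) / B.card)
  else (if j ∈ B then (∑ k ∈ B, P i k) / B.card else P i j)

theorem QC_re (B : Finset (Fin n)) (P : Fin n → Fin n → ℂ) (ω : ℂ) (i j : Fin n) :
    (ω * QC B P i j).re = QB B (fun i j => (ω * P i j).re) i j := by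
  have hdiv : ∀ (z : ℂ) (m : ℕ), (ω * (z / (m : ℂ))).re = (ω * z).re / m := by
    intro z m
    rw [← mul_div_assoc]
    exact Complex.div_natCast_re _ _
  unfold QC QB
  by_cases hi : i ∈ B
  · by_cases hj : j ∈ B
    · rw [if_pos hi, if_pos hj, if_pos hi, if_pos hj, mul_zero, Complex.zero_re]
    · rw [if_pos hi, if_neg hj, if_pos hi, if_neg hj, hdiv, Finset.mul_sum, Complex.re_sum]
  · by_cases hj : j ∈ B
    · rw [if_neg hi, if_pos hj, if_neg hi, if_pos hj, hdiv, Finset.mul_sum, Complex.re_sum]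
    · rw [if_neg hi, if_neg hj, if_neg hi, if_neg hj]

theorem en_ge (B : Finset (Fin n)) (P : Fin n → Fin n → ℝ) :
    ∑ j, vb B (fun i => P i j) ≤ ∑ j, ∑ i, P i j * (P i j - QB B P i j) := by
  have hout : ∀ j ∉ B, ∑ i, P i j * (P i j - QB B P i j) = vb B (fun i => P i j) := by
    intro j hj
    rw [← Finset.sum_add_sum_compl B]
    have h1 : ∑ i ∈ Bᶜ, P i j * (P i j - QB B P i j) = 0 := by
      apply Finset.sum_eq_zero
      intro i hi
      rw [Finset.mem_compl] at hi
      unfold QB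
      rw [if_neg hi, if_neg hj]
      ring
    have h2 : ∑ i ∈ B, P i j * (P i j - QB B P i j) =
        ∑ i ∈ B, P i j * (P i j - (∑ k ∈ B, P k j) / B.card) := by
      apply Finset.sum_congr rfl
      intro i hi
      unfold QB
      rw [if_pos hi, if_neg hj]
    rw [h1, add_zero, h2]
    exact sum_mul_sub B (fun i => P i j)
  have hin : ∑ j ∈ B, ∑ i, P i j * (P i j - QB B P i j) =
      ∑ j ∈ B, ∑ i ∈ B, P i j ^ 2 + ∑ i ∈ Bᶜ, vb B (fun j => P i j) := by
    have h1 : ∀ j ∈ B, ∑ i, P i j * (P i j - QB B P i j) =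
        ∑ i ∈ B, P i j ^ 2 + ∑ i ∈ Bᶜ, P i j * (P i j - (∑ k ∈ B, P i k) / B.card) := by
      intro j hj
      rw [← Finset.sum_add_sum_compl B]
      congr 1
      · apply Finset.sum_congr rfl
        intro i hi
        unfold QB
        rw [if_pos hi, if_pos hj]
        ring
      · apply Finset.sum_congr rfl
        intro i hi
        rw [Finset.mem_compl] at hi
        unfold QB
        rw [if_neg hi, if_pos hj]
    rw [Finset.sum_congr rfl h1, Finset.sum_add_distrib]
    congr 1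
    rw [Finset.sum_comm]
    apply Finset.sum_congr rfl
    intro i _
    exact sum_mul_sub B (fun j => P i j)
  rw [← Finset.sum_add_sum_compl B (fun j => ∑ i, P i j * (P i j - QB B P i j)),
    ← Finset.sum_add_sum_compl B (fun j => vb B (fun i => P i j)), hin]
  have h3 : ∑ j ∈ Bᶜ, ∑ i, P i j * (P i j - QB B P i j) = ∑ j ∈ Bᶜ, vb B (fun i => P i j) :=
    Finset.sum_congr rfl fun j hj => hout j (Finset.mem_compl.1 hj)
  rw [h3]
  have h4 : ∑ j ∈ B, vb B (fun i => P i j) ≤ ∑ j ∈ B, ∑ i ∈ B, P i j ^ 2 :=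
    Finset.sum_le_sum fun j _ => vb_le B (fun i => P i j)
  have h5 : 0 ≤ ∑ i ∈ Bᶜ, vb B (fun j => P i j) :=
    Finset.sum_nonneg fun i _ => vb_nonneg B _
  linarith

theorem real_part (w : Finset (Fin n) → ℝ) (hw : ∀ B, 0 ≤ w B) (μ x : ℝ) (hone : OneBody w μ)
    (P : Fin n → Fin n → ℝ) (hz : ∀ j, ∑ i, P i j = 0) (hne : ∃ i j, P i j ≠ 0)
    (heq : ∀ i j, ∑ B : Finset (Fin n), w B * (P i j - QB B P i j) = x * P i j) : μ ≤ x := by
  have h1 : ∑ j, ∑ i, P i j * (x * P i j) = x * ∑ j, ∑ i, P i j ^ 2 := by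
    rw [Finset.mul_sum]
    apply Finset.sum_congr rfl
    intro j _
    rw [Finset.mul_sum]
    apply Finset.sum_congr rfl
    intro i _
    ring
  have h2 : ∑ j, ∑ i, P i j * (x * P i j) =
      ∑ B : Finset (Fin n), w B * ∑ j, ∑ i, P i j * (P i j - QB B P i j) := by
    have e1 : ∀ j i, P i j * (x * P i j) =
        ∑ B : Finset (Fin n), w B * (P i j * (P i j - QB B P i j)) := by
      intro j i
      rw [← heq i j, Finset.mul_sum]
      apply Finset.sum_congr rfl
      intro B _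
      ring
    simp_rw [e1]
    have e2 : ∀ j, ∑ i, ∑ B : Finset (Fin n), w B * (P i j * (P i j - QB B P i j)) =
        ∑ B : Finset (Fin n), ∑ i, w B * (P i j * (P i j - QB B P i j)) := fun j =>
      Finset.sum_comm
    simp_rw [e2]
    rw [Finset.sum_comm]
    apply Finset.sum_congr rfl
    intro B _
    rw [Finset.mul_sum]
    apply Finset.sum_congr rfl
    intro j _
    rw [Finset.mul_sum]
  have h3 : ∑ B : Finset (Fin n), w B * ∑ j, vb B (fun i => P i j) ≤
      ∑ B : Finset (Fin n), w B * ∑ j, ∑ i, P i j * (P i j - QB B P i j) :=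
    Finset.sum_le_sum fun B _ => mul_le_mul_of_nonneg_left (en_ge B P) (hw B)
  have h4 : ∑ B : Finset (Fin n), w B * ∑ j, vb B (fun i => P i j) =
      ∑ j, ∑ B : Finset (Fin n), w B * vb B (fun i => P i j) := by
    rw [Finset.sum_comm]
    apply Finset.sum_congr rfl
    intro B _
    rw [Finset.mul_sum]
  have h5 : ∀ j, μ * ∑ i, P i j ^ 2 ≤ ∑ B : Finset (Fin n), w B * vb B (fun i => P i j) := by
    intro j
    have := hone (fun i => P i j)
    rw [dvb n Finset.univ (fun i => P i j), vb_univ _ (hz j)] at this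
    refine this.trans (le_of_eq ?_)
    apply Finset.sum_congr rfl
    intro B _
    rw [dvb n B (fun i => P i j)]
  have h6 : μ * ∑ j, ∑ i, P i j ^ 2 ≤ x * ∑ j, ∑ i, P i j ^ 2 := by
    rw [← h1, h2]
    refine le_trans ?_ h3
    rw [h4, Finset.mul_sum]
    exact Finset.sum_le_sum fun j _ => h5 j
  have h7 : 0 < ∑ j, ∑ i, P i j ^ 2 := by
    obtain ⟨i, j, hij⟩ := hne
    apply Finset.sum_pos' (fun j _ => Finset.sum_nonneg fun i _ => sq_nonneg _)
    refine ⟨j, Finset.mem_univ j, ?_⟩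
    apply Finset.sum_pos' (fun i _ => sq_nonneg _)
    exact ⟨i, Finset.mem_univ i, by positivity⟩
  exact le_of_mul_le_mul_right h6 h7

theorem TB_in (B : Finset (Fin n)) (A : UU n) (i : Fin n) (hi : i ∈ B) :
    TB B A (Pi.single i 1) = fun k => if k ∈ B then
      ‖(A : Matrix (Fin n) (Fin n) ℂ) i (B.min' ⟨i, hi⟩)‖ ^ 2 else 0 := by
  funext k
  unfold TB
  by_cases hk : k ∈ B
  · rw [dif_pos hk, if_pos hk, Finset.sum_eq_single i]
    · rw [Pi.single_eq_same, mul_one]
    · intro j _ hj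
      rw [Pi.single_eq_of_ne hj, mul_zero]
    · intro h
      exact absurd hi h
  · rw [dif_neg hk, if_neg hk]
    exact Pi.single_eq_of_ne (fun h => hk (by rw [h]; exact hi)) _

theorem TB_out (B : Finset (Fin n)) (A : UU n) (i : Fin n) (hi : i ∉ B) :
    TB B A (Pi.single i 1) = Pi.single i 1 := by
  funext k
  unfold TB
  by_cases hk : k ∈ B
  · rw [dif_pos hk]
    have hki : k ≠ i := fun h => hi (h ▸ hk)
    rw [Pi.single_eq_of_ne hki]
    apply Finset.sum_eq_zero
    intro j hj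
    have hji : j ≠ i := fun h => hi (h ▸ hj)
    rw [Pi.single_eq_of_ne hji, mul_zero]
  · rw [dif_neg hk]

theorem mom1 (mo5 : MO5Stmt) (B : Finset (Fin n)) (i b : Fin n) (hi : i ∈ B) (hb : b ∈ B) :
    ∫ A : UB B, ((‖((A : UU n) : Matrix (Fin n) (Fin n) ℂ) i b‖ ^ 2 : ℝ) : ℂ) ∂(haarB B) =
      1 / (B.card : ℂ) := by
  have h := (mo5 n B b hb (Pi.single i 1) 0 0).1
  have e1 : ∀ A : UB B, ∑ j ∈ B, ‖((A : UU n) : Matrix (Fin n) (Fin n) ℂ) j b‖ ^ 2 *
      (Pi.single i (1 : ℝ) : Fin n → ℝ) j = ‖((A : UU n) : Matrix (Fin n) (Fin n) ℂ) i b‖ ^ 2 := by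
    intro A
    rw [Finset.sum_eq_single i]
    · rw [Pi.single_eq_same, mul_one]
    · intro j _ hj
      rw [Pi.single_eq_of_ne hj, mul_zero]
    · intro h
      exact absurd hi h
  have e2 : ∑ j ∈ B, (Pi.single i (1 : ℝ) : Fin n → ℝ) j = 1 := by
    rw [Finset.sum_eq_single i]
    · rw [Pi.single_eq_same]
    · intro j _ hj
      rw [Pi.single_eq_of_ne hj]
    · intro h
      exact absurd hi h
  simp_rw [e1] at h
  rw [e2] at h
  have h2 := integral_complex_ofReal (μ := haarB B)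
    (f := fun A : UB B => ‖((A : UU n) : Matrix (Fin n) (Fin n) ℂ) i b‖ ^ 2)
  refine h2.trans ?_
  rw [h]
  push_cast
  rfl

theorem H1 (B : Finset (Fin n)) (g : Fin n → ℂ) (t : ℝ) :
    ∑ l, g l * (((if l ∈ B then t else 0 : ℝ)) : ℂ) = (t : ℂ) * ∑ l ∈ B, g l := by
  have e : ∀ l, g l * (((if l ∈ B then t else 0 : ℝ)) : ℂ) = if l ∈ B then g l * (t : ℂ) else 0 := by
    intro l
    by_cases hl : l ∈ B
    · rw [if_pos hl, if_pos hl]
    · rw [if_neg hl, if_neg hl, Complex.ofReal_zero, mul_zero]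
  simp_rw [e]
  rw [Finset.sum_ite_mem, Finset.univ_inter, ← Finset.sum_mul, mul_comm]

theorem H2 (g : Fin n → ℂ) (j : Fin n) :
    ∑ l, g l * (((Pi.single j (1 : ℝ) : Fin n → ℝ) l : ℝ) : ℂ) = g j := by
  rw [Finset.sum_eq_single j]
  · rw [Pi.single_eq_same, Complex.ofReal_one, mul_one]
  · intro l _ hl
    rw [Pi.single_eq_of_ne hl, Complex.ofReal_zero, mul_zero]
  · intro h
    exact absurd (Finset.mem_univ j) h

theorem L1 (Φ : Fin n → Fin n → ℂ) (u v : Fin n → ℝ) :
    ∑ k, ∑ l, Φ k l * ((u k : ℂ) * (v l : ℂ)) = ∑ k, (∑ l, Φ k l * (v l : ℂ)) * (u k : ℂ) := by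
  apply Finset.sum_congr rfl
  intro k _
  rw [Finset.sum_mul]
  apply Finset.sum_congr rfl
  intro l _
  ring

/-- the tensor of the function -/
theorem avg (mo5 : MO5Stmt) (f : (Fin 2 → Fin n → ℝ) → ℂ) (Φ : Fin n → Fin n → ℂ)
    (hf : ∀ c : Fin 2 → Fin n → ℝ, f c = ∑ i, ∑ j, Φ i j * ((c 0 i : ℂ) * (c 1 j : ℂ)))
    (hanti : ∀ i j, Φ i j = - Φ j i) (hinv : ∀ B : Finset (Fin n),
      IsProbabilityMeasure (haarB B)) (B : Finset (Fin n)) (i j : Fin n) :
    ∫ A : UB B, f (fun s => TB B (A : UU n)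
      ((![Pi.single i 1, Pi.single j 1] : Fin 2 → Fin n → ℝ) s)) ∂(haarB B) = QC B Φ i j := by
  have hform : ∀ A : UB B, f (fun s => TB B (A : UU n)
      ((![Pi.single i 1, Pi.single j 1] : Fin 2 → Fin n → ℝ) s)) =
      ∑ k, ∑ l, Φ k l * ((TB B (A : UU n) (Pi.single i 1) k : ℂ) *
        (TB B (A : UU n) (Pi.single j 1) l : ℂ)) := by
    intro A
    rw [hf]
    rfl
  simp_rw [hform, L1]
  have hp := hinv B
  have hm : ∀ (i b : Fin n) (hi : i ∈ B) (hb : b ∈ B) (z : ℂ), ∫ A : UB B,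
      ((‖((A : UU n) : Matrix (Fin n) (Fin n) ℂ) i b‖ ^ 2 : ℝ) : ℂ) * z ∂(haarB B) =
      z / (B.card : ℂ) := by
    intro i b hi hb z
    rw [integral_mul_const, mom1 mo5 B i b hi hb]
    ring
  unfold QC
  by_cases hi : i ∈ B
  · by_cases hj : j ∈ B
    · rw [if_pos hi, if_pos hj]
      have hanti2 : ∑ k ∈ B, ∑ l ∈ B, Φ k l = 0 := by
        have h1 : ∑ k ∈ B, ∑ l ∈ B, Φ k l = - ∑ k ∈ B, ∑ l ∈ B, Φ k l := by
          conv_lhs => rw [Finset.sum_comm]
          rw [← Finset.sum_neg_distrib]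
          apply Finset.sum_congr rfl
          intro k _
          rw [← Finset.sum_neg_distrib]
          exact Finset.sum_congr rfl fun l _ => hanti l k
        have h2 : (2 : ℂ) * ∑ k ∈ B, ∑ l ∈ B, Φ k l = 0 := by
          rw [two_mul]
          nth_rewrite 1 [h1]
          ring
        rcases mul_eq_zero.1 h2 with h | h
        · norm_num at h
        · exact h
      have e : ∀ A : UB B, ∑ k, (∑ l, Φ k l * ((TB B (A : UU n) (Pi.single j 1) l : ℝ) : ℂ)) *
          ((TB B (A : UU n) (Pi.single i 1) k : ℝ) : ℂ) = 0 := by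
        intro A
        rw [TB_in B A i hi, TB_in B A j hj, H1]
        simp_rw [H1]
        rw [← Finset.mul_sum, hanti2, mul_zero, mul_zero]
      simp_rw [e]
      exact integral_zero _ _
    · rw [if_pos hi, if_neg hj]
      have e : ∀ A : UB B, ∑ k, (∑ l, Φ k l * ((TB B (A : UU n) (Pi.single j 1) l : ℝ) : ℂ)) *
          ((TB B (A : UU n) (Pi.single i 1) k : ℝ) : ℂ) =
          ((‖((A : UU n) : Matrix (Fin n) (Fin n) ℂ) i (B.min' ⟨i, hi⟩)‖ ^ 2 : ℝ) : ℂ) *
            ∑ k ∈ B, Φ k j := by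
        intro A
        rw [TB_in B A i hi, TB_out B A j hj, H1]
        simp_rw [H2]
      simp_rw [e]
      exact hm i _ hi (B.min'_mem _) _
  · by_cases hj : j ∈ B
    · rw [if_neg hi, if_pos hj]
      have e : ∀ A : UB B, ∑ k, (∑ l, Φ k l * ((TB B (A : UU n) (Pi.single j 1) l : ℝ) : ℂ)) *
          ((TB B (A : UU n) (Pi.single i 1) k : ℝ) : ℂ) =
          ((‖((A : UU n) : Matrix (Fin n) (Fin n) ℂ) j (B.min' ⟨j, hj⟩)‖ ^ 2 : ℝ) : ℂ) *
            ∑ l ∈ B, Φ i l := by
        intro A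
        rw [TB_out B A i hi, TB_in B A j hj, H2, H1]
      simp_rw [e]
      exact hm j _ hj (B.min'_mem _) _
    · rw [if_neg hi, if_neg hj]
      have e : ∀ A : UB B, ∑ k, (∑ l, Φ k l * ((TB B (A : UU n) (Pi.single j 1) l : ℝ) : ℂ)) *
          ((TB B (A : UU n) (Pi.single i 1) k : ℝ) : ℂ) = Φ i j := by
        intro A
        rw [TB_out B A i hi, TB_out B A j hj, H2, H2]
      simp_rw [e]
      rw [integral_const]
      simp

theorem sk2 (mo5 : MO5Stmt) (inv : INVStmt) : SK2Stmt := by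
  intro n w hw μ x f hone hr hne heig hsym
  obtain ⟨N, a, y, hy, hfc⟩ := hr
  set Φ : Fin n → Fin n → ℂ := fun i j => ∑ t, a t * (y t 0 i * y t 1 j) with hΦ
  have hf : ∀ c : Fin 2 → Fin n → ℝ, f c = ∑ i, ∑ j, Φ i j * ((c 0 i : ℂ) * (c 1 j : ℂ)) := by
    intro c
    rw [hfc]
    simp only [hΦ, Finset.sum_mul]
    have e : ∀ i, ∑ j, ∑ t, a t * (y t 0 i * y t 1 j) * ((c 0 i : ℂ) * (c 1 j : ℂ)) =
        ∑ t, ∑ j, a t * (y t 0 i * y t 1 j) * ((c 0 i : ℂ) * (c 1 j : ℂ)) := fun i =>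
      Finset.sum_comm
    simp_rw [e]
    rw [Finset.sum_comm]
    apply Finset.sum_congr rfl
    intro t _
    rw [Fin.prod_univ_two, Finset.sum_mul_sum, Finset.mul_sum]
    apply Finset.sum_congr rfl
    intro i _
    rw [Finset.mul_sum]
    apply Finset.sum_congr rfl
    intro j _
    ring
  have hval : ∀ i j, f (![Pi.single i 1, Pi.single j 1] : Fin 2 → Fin n → ℝ) = Φ i j := by
    intro i j
    rw [hf]
    have e := L1 Φ (Pi.single i 1) (Pi.single j 1)
    rw [H2] at e
    rw [H2] at e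
    exact e
  have hanti : ∀ i j, Φ i j = - Φ j i := by
    intro i j
    have h := hsym (![Pi.single i 1, Pi.single j 1] : Fin 2 → Fin n → ℝ)
    have hu : (Finset.univ : Finset (Equiv.Perm (Fin 2))) = {1, Equiv.swap 0 1} := by decide
    rw [hu, Finset.sum_insert (by decide), Finset.sum_singleton] at h
    have e1 : (fun s => (![Pi.single i 1, Pi.single j 1] : Fin 2 → Fin n → ℝ)
        ((1 : Equiv.Perm (Fin 2)) s)) = ![Pi.single i 1, Pi.single j 1] := rfl
    have e2 : (fun s => (![Pi.single i 1, Pi.single j 1] : Fin 2 → Fin n → ℝ)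
        ((Equiv.swap 0 1 : Equiv.Perm (Fin 2)) s)) = ![Pi.single j 1, Pi.single i 1] := by
      funext s
      fin_cases s
      · rfl
      · rfl
    rw [e1, e2, hval, hval] at h
    exact eq_neg_of_add_eq_zero_left h
  have hz : ∀ j, ∑ i, Φ i j = 0 := by
    intro j
    simp only [hΦ]
    rw [Finset.sum_comm]
    apply Finset.sum_eq_zero
    intro t _
    have e : ∀ i, a t * (y t 0 i * y t 1 j) = a t * y t 1 j * y t 0 i := fun i => by ring
    simp_rw [e]
    rw [← Finset.mul_sum, hy t 0, mul_zero]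
  have hne2 : ∃ i j, Φ i j ≠ 0 := by
    by_contra hcon
    push Not at hcon
    obtain ⟨c, hc⟩ := hne
    apply hc
    rw [hf]
    apply Finset.sum_eq_zero
    intro i _
    apply Finset.sum_eq_zero
    intro j _
    rw [hcon i j, zero_mul]
  have heq : ∀ i j, ∑ B : Finset (Fin n), (w B : ℂ) * (Φ i j - QC B Φ i j) = (x : ℂ) * Φ i j := by
    intro i j
    have h := heig (![Pi.single i 1, Pi.single j 1] : Fin 2 → Fin n → ℝ)
    rw [hval] at h
    rw [← h]
    apply Finset.sum_congr rfl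
    intro B _
    rw [avg mo5 f Φ hf hanti (fun B => (inv n B).1) B i j]
  obtain ⟨i₀, j₀, h0⟩ := hne2
  have key : ∀ ω : ℂ, (ω * Φ i₀ j₀).re ≠ 0 → μ ≤ x := by
    intro ω hω
    refine real_part w hw μ x hone (fun i j => (ω * Φ i j).re) ?_ ⟨i₀, j₀, hω⟩ ?_
    · intro j
      rw [← Complex.re_sum, ← Finset.mul_sum, hz j, mul_zero, Complex.zero_re]
    · intro i j
      have h := congrArg (fun z => (ω * z).re) (heq i j)
      simp only [Finset.mul_sum, Complex.re_sum] at h
      have e1 : ∀ (r : ℝ) (z : ℂ), (ω * ((r : ℂ) * z)).re = r * (ω * z).re := by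
        intro r z
        have : ω * ((r : ℂ) * z) = (r : ℂ) * (ω * z) := by ring
        rw [this, Complex.re_ofReal_mul]
      rw [e1] at h
      rw [← h]
      apply Finset.sum_congr rfl
      intro B _
      have e2 : (ω * (Φ i j - QC B Φ i j)).re =
          (ω * Φ i j).re - QB B (fun i j => (ω * Φ i j).re) i j := by
        rw [mul_sub, Complex.sub_re, QC_re]
      rw [e1, e2]
  by_cases hre : (Φ i₀ j₀).re = 0
  · apply key (-Complex.I)
    intro h
    apply h0
    apply Complex.ext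
    · rw [hre, Complex.zero_re]
    · have : (-Complex.I * Φ i₀ j₀).re = (Φ i₀ j₀).im := by simp
      rw [this] at h
      rw [h, Complex.zero_im]
  · apply key 1
    rw [one_mul]
    exact hre

end Pool.Agent.BSE.H85
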